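import Pool.Agent.W921.VP.Defs
import Pool.Agent.H566W.Ana

set_option autoImplicit false

namespace Pool.Agent.W345.VP

open FirstOrder Set MeasureTheory Pool.Agent.W921.VP

/-- the structure transported along a bijection -/
@[reducible] def tr {L : FirstOrder.Language.{0, 0}} (hL : L.IsRelational) {M N : Type} (e : M ≃ N)
    (S : L.Structure M) : L.Structure N where
  funMap := fun f => isEmptyElim f
  RelMap := fun R s => S.RelMap R (fun i => e.symm (s i))

theorem tr_mods {L : FirstOrder.Language.{0, 0}} (hL : L.IsRelational) {M N : Type} (e : M ≃ N)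
    (S : L.Structure M) (T : L.Theory) (h : Mods S T) : Mods (tr hL e S) T := by
  let _ := S
  let _ : L.Structure N := tr hL e S
  have : M ⊨ T := h
  let E : L.Equiv M N := 
    { e with
      map_fun' := fun f => isEmptyElim f
      map_rel' := fun R s => by
        change S.RelMap R (fun i => e.symm (e (s i))) ↔ S.RelMap R s
        simp }
  exact (FirstOrder.Language.StrongHomClass.theory_model E : N ⊨ T)

theorem polish_cantor : PolishSpace (ℕ → Bool) := by
  have : PolishSpace Bool := inferInstance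
  infer_instance

theorem polish_baire : PolishSpace (ℕ → ℕ) := inferInstance

/-- evaluation of a locally constant choice -/
theorem clopen_eval {X I : Type} [TopologicalSpace X] [TopologicalSpace I] [DiscreteTopology I]
    (P : I → Set X) (hP : ∀ i, IsClopen (P i)) (g : X → I) (hg : Continuous g) :
    IsClopen {x | x ∈ P (g x)} := by
  have h1 : ∀ Q : I → Set X, (∀ i, IsOpen (Q i)) → IsOpen {x | x ∈ Q (g x)} := by
    intro Q hQ
    have : {x | x ∈ Q (g x)} = ⋃ i, (Q i ∩ g ⁻¹' {i}) := by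
      ext x
      simp only [mem_ofPred_eq, mem_iUnion, mem_inter_iff, mem_preimage, mem_singleton_iff]
      exact ⟨fun h => ⟨g x, h, rfl⟩, fun ⟨i, h, h'⟩ => h' ▸ h⟩
    rw [this]
    exact isOpen_iUnion fun i => (hQ i).inter ((isOpen_discrete {i}).preimage hg)
  refine ⟨?_, h1 P fun i => (hP i).2⟩
  rw [← isOpen_compl_iff]
  have : {x | x ∈ P (g x)}ᶜ = {x | x ∈ (fun i => (P i)ᶜ) (g x)} := by
    ext x; rfl
  rw [this]
  exact h1 _ fun i => (hP i).1.isOpen_compl

theorem analytic_isom {L : FirstOrder.Language.{0, 0}} (G : (ℕ → Bool) → L.Structure ℕ)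
    (hG : ∀ (n : ℕ) (R : L.Relations n) (a : Fin n → ℕ), IsClopen {x | (G x).RelMap R a}) :
    AnalyticSet {p : (ℕ → Bool) × (ℕ → Bool) | Isom (G p.2) (G p.1)} := by
  have hp1 : PolishSpace (ℕ → Bool) := polish_cantor
  have hp2 : PolishSpace (ℕ → ℕ) := polish_baire
  set T : Set (((ℕ → Bool) × (ℕ → Bool)) × ((ℕ → ℕ) × (ℕ → ℕ))) :=
    {q | (∀ n, q.2.1 (q.2.2 n) = n) ∧ (∀ n, q.2.2 (q.2.1 n) = n) ∧
      ∀ (t : Σ n : ℕ, L.Relations n × (Fin n → ℕ)),
        ((G q.1.2).RelMap t.2.1 t.2.2 ↔ (G q.1.1).RelMap t.2.1 (fun i => q.2.1 (t.2.2 i)))} with hT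
  have hc1 : ∀ (n : ℕ), Continuous (fun q : ((ℕ → Bool) × (ℕ → Bool)) × ((ℕ → ℕ) × (ℕ → ℕ)) =>
      q.2.1 n) := fun n => (continuous_apply n).comp (continuous_fst.comp continuous_snd)
  have hc2 : ∀ (n : ℕ), Continuous (fun q : ((ℕ → Bool) × (ℕ → Bool)) × ((ℕ → ℕ) × (ℕ → ℕ)) =>
      q.2.2 n) := fun n => (continuous_apply n).comp (continuous_snd.comp continuous_snd)
  have hTc : IsClosed T := by
    have h1 : T = (⋂ n, {q | q.2.1 (q.2.2 n) = n}) ∩ ((⋂ n, {q | q.2.2 (q.2.1 n) = n}) ∩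
        ⋂ t : (Σ n : ℕ, L.Relations n × (Fin n → ℕ)), {q | (G q.1.2).RelMap t.2.1 t.2.2 ↔
          (G q.1.1).RelMap t.2.1 (fun i => q.2.1 (t.2.2 i))}) := by
      ext q
      simp [hT]
    rw [h1]
    refine (isClosed_iInter fun n => ?_).inter ((isClosed_iInter fun n => ?_).inter
      (isClosed_iInter fun t => ?_))
    · exact (clopen_eval (fun i : ℕ =>
        {q : ((ℕ → Bool) × (ℕ → Bool)) × ((ℕ → ℕ) × (ℕ → ℕ)) | q.2.1 i = n})
        (fun i => (isClopen_discrete {n}).preimage (hc1 i)) (fun q => q.2.2 n) (hc2 n)).1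
    · exact (clopen_eval (fun i : ℕ =>
        {q : ((ℕ → Bool) × (ℕ → Bool)) × ((ℕ → ℕ) × (ℕ → ℕ)) | q.2.2 i = n})
        (fun i => (isClopen_discrete {n}).preimage (hc2 i)) (fun q => q.2.1 n) (hc1 n)).1
    · have a1 : IsClopen {q : ((ℕ → Bool) × (ℕ → Bool)) × ((ℕ → ℕ) × (ℕ → ℕ)) |
          (G q.1.2).RelMap t.2.1 t.2.2} :=
        (hG _ t.2.1 t.2.2).preimage (continuous_snd.comp continuous_fst)
      have a2 : IsClopen {q : ((ℕ → Bool) × (ℕ → Bool)) × ((ℕ → ℕ) × (ℕ → ℕ)) |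
          (G q.1.1).RelMap t.2.1 (fun i => q.2.1 (t.2.2 i))} :=
        clopen_eval (I := Fin t.1 → ℕ) (fun s =>
          {q : ((ℕ → Bool) × (ℕ → Bool)) × ((ℕ → ℕ) × (ℕ → ℕ)) | (G q.1.1).RelMap t.2.1 s})
          (fun s => (hG _ t.2.1 s).preimage (continuous_fst.comp continuous_fst))
          (fun q i => q.2.1 (t.2.2 i)) (continuous_pi fun i => hc1 _)
      have a3 : {q : ((ℕ → Bool) × (ℕ → Bool)) × ((ℕ → ℕ) × (ℕ → ℕ)) |
          (G q.1.2).RelMap t.2.1 t.2.2 ↔ (G q.1.1).RelMap t.2.1 (fun i => q.2.1 (t.2.2 i))} =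
          ({q | (G q.1.2).RelMap t.2.1 t.2.2} ∩
            {q | (G q.1.1).RelMap t.2.1 (fun i => q.2.1 (t.2.2 i))}) ∪
          ({q | (G q.1.2).RelMap t.2.1 t.2.2}ᶜ ∩
            {q | (G q.1.1).RelMap t.2.1 (fun i => q.2.1 (t.2.2 i))}ᶜ) := by
        ext q
        simp only [mem_ofPred_eq, mem_union, mem_inter_iff, mem_compl_iff]
        tauto
      rw [a3]
      exact ((a1.inter a2).union (a1.compl.inter a2.compl)).1
  have hTa : AnalyticSet T := hTc.analyticSet
  have h2 := hTa.image_of_continuous (f := Prod.fst) continuous_fst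
  have h3 : {p : (ℕ → Bool) × (ℕ → Bool) | Isom (G p.2) (G p.1)} = Prod.fst '' T := by
    ext p
    constructor
    · rintro ⟨e, he⟩
      exact ⟨(p, (e, e.symm)), ⟨fun n => by simp, fun n => by simp, fun t => he _ _ _⟩, rfl⟩
    · rintro ⟨⟨p', u, v⟩, ⟨h3, h4, h5⟩, rfl⟩
      exact ⟨⟨u, v, h4, h3⟩, fun n R s => h5 ⟨n, R, s⟩⟩
  rw [h3]
  exact h2

theorem cc : S_CC := by
  intro L _ hL T U _ _ F hF hcl hcount
  obtain ⟨e⟩ : Nonempty (U ≃ ℕ) := nonempty_equiv_of_countable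
  have hG : ∀ (n : ℕ) (R : L.Relations n) (a : Fin n → ℕ),
      IsClopen {x | (tr hL e (F x)).RelMap R a} := fun n R a => hcl n R (fun i => e.symm (a i))
  have hiso : ∀ x y, Isom (tr hL e (F x)) (tr hL e (F y)) → Isom (F x) (F y) := by
    rintro x y ⟨u, hu⟩
    refine ⟨(e.trans u).trans e.symm, fun n R s => ?_⟩
    have h1 : (F x).RelMap R (fun i => e.symm (e (s i))) ↔
      (F y).RelMap R (fun i => e.symm (u (e (s i)))) := hu n R (fun i => e (s i))
    have h2 : (fun i => e.symm (e (s i))) = s := by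
      funext i; simp
    rw [h2] at h1
    exact h1
  obtain ⟨h, hh1, hh2⟩ := Pool.Agent.H566W.perfect_independent
    (fun A A' => Isom (tr hL e (F A')) (tr hL e (F A)))
    (analytic_isom (fun x => tr hL e (F x)) hG)
    (fun x => (hcount x).mono fun y hy => hiso _ _ hy)
  refine ⟨fun x => tr hL e (F (h x)), fun x => tr_mods hL e _ T (hF _), fun x y hxy => ?_,
    fun n R a => (hG n R a).preimage hh1⟩
  by_contra hne
  exact hh2 y x (Ne.symm hne) hxy

end Pool.Agent.W345.VP
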