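import Pool.Agent.W921.VP.Defs
import Pool.Agent.H579R3.SB

set_option autoImplicit false

namespace Pool.Agent.W345.VP

open Set MeasureTheory

theorem sm : Pool.Agent.W921.VP.S_SM := by
  intro X _ _ _ _ B θ hB hθ hu
  have hE : Equivalence (fun x y : X => θ x = θ y) :=
    ⟨fun _ => rfl, fun h => h.symm, fun h h' => h.trans h'⟩
  have hm : MeasurableSet {q : X × X | θ q.1 = θ q.2} := by
    have : {q : X × X | θ q.1 = θ q.2} = ⋂ n, {q : X × X | θ q.1 n = θ q.2 n} := by
      ext q
      simp only [mem_ofPred_eq, mem_iInter]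
      exact ⟨fun h n => by rw [h], fun h => funext h⟩
    rw [this]
    refine MeasurableSet.iInter fun n => ?_
    exact measurableSet_eq_fun
      ((measurable_pi_apply n).comp (hθ.comp measurable_fst))
      ((measurable_pi_apply n).comp (hθ.comp measurable_snd))
  rcases Pool.Agent.H579R3.SV.silver hE hm hB.analyticSet with ⟨S, hS1, hS2, hS3⟩ | ⟨h, h1, h2, h3⟩
  · exfalso
    apply hu
    refine (hS2.image θ).mono ?_
    rintro _ ⟨x, hx, rfl⟩
    obtain ⟨y, hy, hxy⟩ := hS3 x hx
    exact ⟨y, hy, hxy.symm⟩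
  · refine ⟨h, h1, h2, fun b b' hbb => ?_⟩
    by_contra hne
    exact h3 b b' hne hbb

end Pool.Agent.W345.VP
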