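import Pool.Agent.W921.VP.Defs

set_option autoImplicit false

namespace Pool.Agent.W345.VP.ULT

open FirstOrder Set Filter Pool.Agent.W921.VP

/-- not constant modulo the ultrafilter -/
def NC (U : Ultrafilter ℕ) (g : ℕ → ℕ) : Prop := ∀ n, ∀ᶠ i in (U : Filter ℕ), g i ≠ n

theorem hyp_ge (N : ℕ) : ∀ᶠ i in (hyperfilter ℕ : Filter ℕ), N ≤ i :=
  Nat.hyperfilter_le_atTop (eventually_ge_atTop N)

theorem twin {L : FirstOrder.Language.{0, 0}} (hc : Countable L.Symbols) (S : L.Structure ℕ)
    (g : ℕ → ℕ) (hg : NC (hyperfilter ℕ) g) :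
    ∃ g' : ℕ → ℕ, (∀ n, g' n ≠ g n) ∧ (∀ n, g' n ∈ range g) ∧ NC (hyperfilter ℕ) g' ∧
      ∀ (n : ℕ) (R : L.Relations n) (p : Fin n → Option ℕ),
        (∀ᶠ i in (hyperfilter ℕ : Filter ℕ), S.RelMap R (fun j => (p j).elim (g i) id)) ↔
        (∀ᶠ i in (hyperfilter ℕ : Filter ℕ), S.RelMap R (fun j => (p j).elim (g' i) id)) := by
  classical
  have hrel : Countable (Σ n, L.Relations n) := by
    have : Countable ((Σ l, L.Functions l) ⊕ (Σ l, L.Relations l)) := hc
    exact Function.Injective.countable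
      (f := (Sum.inr : (Σ l, L.Relations l) → (Σ l, L.Functions l) ⊕ (Σ l, L.Relations l)))
      Sum.inr_injective
  have hreln : ∀ n, Countable (L.Relations n) := fun n =>
    Function.Injective.countable (f := fun R : L.Relations n => (⟨n, R⟩ : Σ n, L.Relations n))
      (fun a b h => by simpa using h)
  have hA : Countable (Σ n, L.Relations n × (Fin n → Option ℕ)) := inferInstance
  obtain ⟨enc, henc⟩ := hA.exists_injective_nat
  -- truth values
  let tv : (Σ n, L.Relations n × (Fin n → Option ℕ)) → ℕ → Prop := fun a x =>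
    S.RelMap a.2.1 (fun j => (a.2.2 j).elim x id)
  let lim : (Σ n, L.Relations n × (Fin n → Option ℕ)) → Prop := fun a =>
    ∀ᶠ i in (hyperfilter ℕ : Filter ℕ), tv a (g i)
  have hlim : ∀ a, ∀ᶠ i in (hyperfilter ℕ : Filter ℕ), (tv a (g i) ↔ lim a) := by
    intro a
    by_cases h : lim a
    · filter_upwards [h] with i hi
      exact ⟨fun _ => h, fun _ => hi⟩
    · have h2 : ∀ᶠ i in (hyperfilter ℕ : Filter ℕ), ¬ tv a (g i) :=
        Ultrafilter.eventually_not.2 h
      filter_upwards [h2] with i hi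
      exact ⟨fun h' => absurd h' hi, fun h' => absurd h' h⟩
  have hB : ∀ n, ∀ᶠ i in (hyperfilter ℕ : Filter ℕ), g i ≠ g n ∧ n < g i ∧
      ∀ a, enc a ≤ n → (tv a (g i) ↔ lim a) := by
    intro n
    refine (hg (g n)).and (Filter.Eventually.and ?_ ?_)
    · have : ∀ᶠ i in (hyperfilter ℕ : Filter ℕ), ∀ m ∈ Finset.range (n + 1), g i ≠ m :=
        (Filter.eventually_all_finset _).2 fun m _ => hg m
      filter_upwards [this] with i hi
      by_contra hle
      exact hi (g i) (by simp; omega) rfl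
    · have hfin : {a | enc a ≤ n}.Finite :=
        Set.Finite.preimage henc.injOn (Set.finite_Iic n)
      have := (Filter.eventually_all_finite hfin).2 (fun a _ => hlim a)
      exact this
  choose h hh using fun n => (hB n).exists
  refine ⟨fun n => g (h n), fun n => (hh n).1, fun n => ⟨_, rfl⟩, fun n => ?_, fun n R p => ?_⟩
  · filter_upwards [hyp_ge n] with i hi
    have := (hh i).2.1
    omega
  · have key : ∀ᶠ i in (hyperfilter ℕ : Filter ℕ), (tv ⟨n, R, p⟩ (g (h i)) ↔ lim ⟨n, R, p⟩) := by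
      filter_upwards [hyp_ge (enc ⟨n, R, p⟩)] with i hi
      exact (hh i).2.2 _ hi
    constructor
    · intro hl
      filter_upwards [key] with i hi
      exact hi.2 hl
    · intro hr
      obtain ⟨i, hi1, hi2⟩ := (key.and hr).exists
      exact hi1.1 hi2

/-- terms -/
inductive Tm : Type
  | con : ℕ → Tm
  | f : Tm
  | z : ℕ → Tm → Tm → Tm
  | tw : Tm → Tm
  deriving Countable

/-- values of terms -/
def val (Z : ℕ → ℕ → ℕ → ℕ) (f : ℕ → ℕ) (tw : (ℕ → ℕ) → (ℕ → ℕ)) : Tm → ℕ → ℕ
  | Tm.con n => fun _ => n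
  | Tm.f => f
  | Tm.z k a b => fun i => Z k (val Z f tw a i) (val Z f tw b i)
  | Tm.tw a => tw (val Z f tw a)

theorem ult : S_ULT := by
  classical
  intro L hc hL S Z f hf
  have htw : ∀ g : ℕ → ℕ, ∃ g' : ℕ → ℕ, NC (hyperfilter ℕ) g → (∀ n, g' n ≠ g n) ∧
      (∀ n, g' n ∈ range g) ∧ NC (hyperfilter ℕ) g' ∧
      ∀ (n : ℕ) (R : L.Relations n) (p : Fin n → Option ℕ),
        (∀ᶠ i in (hyperfilter ℕ : Filter ℕ), S.RelMap R (fun j => (p j).elim (g i) id)) ↔
        (∀ᶠ i in (hyperfilter ℕ : Filter ℕ), S.RelMap R (fun j => (p j).elim (g' i) id)) := by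
    intro g
    by_cases hg : NC (hyperfilter ℕ) g
    · obtain ⟨g', h⟩ := twin hc S g hg
      exact ⟨g', fun _ => h⟩
    · exact ⟨g, fun h => absurd h hg⟩
  choose tw htw using htw
  let v : Tm → ℕ → ℕ := val Z f tw
  let st : Setoid Tm := ⟨fun a b => ∀ᶠ i in (hyperfilter ℕ : Filter ℕ), v a i = v b i,
    ⟨fun a => Filter.Eventually.of_forall fun _ => rfl,
     fun h => h.mono fun i hi => hi.symm,
     fun h h' => (h.and h').mono fun i hi => hi.1.trans hi.2⟩⟩
  let M : Type := Quotient st
  let rep : M → Tm := fun m => if m = Quotient.mk st Tm.f then Tm.f else m.out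
  have hrep : ∀ m : M, Quotient.mk st (rep m) = m := by
    intro m
    simp only [rep]
    split_ifs with h
    · exact h.symm
    · exact Quotient.out_eq m
  let r : M → ℕ → ℕ := fun m => v (rep m)
  have hr : ∀ a : Tm, ∀ᶠ i in (hyperfilter ℕ : Filter ℕ), r (Quotient.mk st a) i = v a i := by
    intro a
    exact Quotient.exact (hrep (Quotient.mk st a))
  have hinj : ∀ m m' : M, (∀ᶠ i in (hyperfilter ℕ : Filter ℕ), r m i = r m' i) → m = m' := by
    intro m m' h
    rw [← hrep m, ← hrep m']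
    exact Quotient.sound h
  let c : ℕ → M := fun n => Quotient.mk st (Tm.con n)
  have hcn : ∀ n, ∀ᶠ i in (hyperfilter ℕ : Filter ℕ), r (c n) i = n := fun n => hr (Tm.con n)
  let t : M → M := fun m => Quotient.mk st (Tm.tw (rep m))
  have htv : ∀ m, ∀ᶠ i in (hyperfilter ℕ : Filter ℕ), r (t m) i = tw (r m) i :=
    fun m => hr (Tm.tw (rep m))
  have hNC : ∀ m, m ∉ range c → NC (hyperfilter ℕ) (r m) := by
    intro m hm n
    by_contra h
    apply hm
    refine ⟨n, ?_⟩
    apply hinj
    have h2 : ∀ᶠ i in (hyperfilter ℕ : Filter ℕ), r m i = n := by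
      by_contra h3
      exact h (Ultrafilter.eventually_not.2 h3)
    filter_upwards [h2, hcn n] with i h4 h5
    rw [h4, h5]
  let S' : L.Structure M :=
    { funMap := fun f => isEmptyElim f
      RelMap := fun R s => ∀ᶠ i in (hyperfilter ℕ : Filter ℕ), S.RelMap R (fun j => r (s j) i) }
  refine ⟨M, S', hyperfilter ℕ, r, c, t, ?_, fun n R s => Iff.rfl, hinj, hcn, ?_, ?_, ?_⟩
  · exact inferInstanceAs (Countable (Quotient st))
  · intro k m m'
    refine ⟨Quotient.mk st (Tm.z k (rep m) (rep m')), ?_⟩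
    exact hr (Tm.z k (rep m) (rep m'))
  · refine ⟨Quotient.mk st Tm.f, ?_, fun i => ?_⟩
    · rintro ⟨n, hn⟩
      have h1 : ∀ᶠ i in (hyperfilter ℕ : Filter ℕ), n = f i := Quotient.exact hn
      have h2 : ∀ᶠ i in (hyperfilter ℕ : Filter ℕ), f i ≠ n := by
        have hfin : {i | f i = n}.Finite :=
          Set.Finite.preimage hf.injOn (Set.finite_singleton n)
        have h3 : {i | f i = n}ᶜ ∈ (hyperfilter ℕ : Filter ℕ) :=
          hyperfilter_le_cofinite hfin.compl_mem_cofinite
        exact h3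
      obtain ⟨i, h3, h4⟩ := (h1.and h2).exists
      exact h4 h3.symm
    · simp [r, rep, v, val]
  · intro m hm
    obtain ⟨a1, a2, a3, a4⟩ := htw (r m) (hNC m hm)
    refine ⟨?_, ?_, ?_, ?_⟩
    · rintro ⟨n, hn⟩
      obtain ⟨i, h1, h2, h3⟩ := ((htv m).and ((hcn n).and (a3 n))).exists
      rw [hn] at h2
      exact h3 (h1.symm.trans h2)
    · intro he
      have h1 := htv m
      rw [he] at h1
      obtain ⟨i, h2⟩ := h1.exists
      exact a1 i h2.symm
    · intro n R p
      -- translate the parameters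
      have hk : ∀ x : range c, ∃ k, c k = x.1 := fun x => x.2
      choose k hk using hk
      let p' : Fin n → Option ℕ := fun j => (p j).map k
      have key : ∀ m₀ : M, ∀ᶠ i in (hyperfilter ℕ : Filter ℕ),
          (fun j => r ((p j).elim m₀ Subtype.val) i) = fun j => (p' j).elim (r m₀ i) id := by
        intro m₀
        have : ∀ᶠ i in (hyperfilter ℕ : Filter ℕ), ∀ j : Fin n,
            r ((p j).elim m₀ Subtype.val) i = (p' j).elim (r m₀ i) id := by
          rw [Filter.eventually_all]
          intro j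
          rcases hpj : p j with _ | x
          · simp [p', hpj]
          · have := hcn (k x)
            simpa [p', hpj, hk x] using this
        exact this.mono fun i hi => funext hi
      change (∀ᶠ i in (hyperfilter ℕ : Filter ℕ),
          S.RelMap R (fun j => r ((p j).elim m Subtype.val) i)) ↔
        (∀ᶠ i in (hyperfilter ℕ : Filter ℕ),
          S.RelMap R (fun j => r ((p j).elim (t m) Subtype.val) i))
      have e1 : (∀ᶠ i in (hyperfilter ℕ : Filter ℕ),
          S.RelMap R (fun j => r ((p j).elim m Subtype.val) i)) ↔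
          ∀ᶠ i in (hyperfilter ℕ : Filter ℕ), S.RelMap R (fun j => (p' j).elim (r m i) id) :=
        Filter.eventually_congr ((key m).mono fun i hi => by rw [hi])
      have e2 : (∀ᶠ i in (hyperfilter ℕ : Filter ℕ),
          S.RelMap R (fun j => r ((p j).elim (t m) Subtype.val) i)) ↔
          ∀ᶠ i in (hyperfilter ℕ : Filter ℕ), S.RelMap R (fun j => (p' j).elim (tw (r m) i) id) :=
        Filter.eventually_congr (((key (t m)).and (htv m)).mono fun i hi => by
          rw [hi.1, hi.2])
      rw [e1, e2]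
      exact a4 n R p'
    · filter_upwards [htv m] with i hi
      rw [hi]
      exact ⟨a1 i, a2 i⟩

end Pool.Agent.W345.VP.ULT
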